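import Mathlib
import Pool.Agent.Y576.FA.Para

/-!
# A countably compact Hausdorff paratopological group that is not a topological group, in ZFC
-/

namespace Pool.Agent.Results.MP_3a0237_al.CountablyCompactZFC

open Topology

variable (G : Type) [TopologicalSpace G]

/-- `G` is countably compact at `A`: every infinite subset of `A` has an accumulation point, each
neighbourhood of which contains infinitely many points of the subset. -/
def CountablyCompactAt (A : Set G) : Prop :=
  ∀ B ⊆ A, B.Infinite → ∃ x : G, ∀ U ∈ 𝓝 x, (U ∩ B).Infinite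

/-- Countably compact. -/
def CountablyCompact : Prop := CountablyCompactAt G Set.univ

/-- Countably pracompact. -/
def CountablyPracompact : Prop := ∃ D : Set G, Dense D ∧ CountablyCompactAt G D

/-- Pseudocompact: every locally finite family of nonempty open sets is finite. -/
def Pseudocompact : Prop :=
  ∀ F : Set (Set G), (∀ O ∈ F, IsOpen O ∧ O.Nonempty) →
    (∀ x : G, ∃ U ∈ 𝓝 x, {O ∈ F | (O ∩ U).Nonempty}.Finite) → F.Finite

/-- 2-pseudocompact. -/
def TwoPseudocompact [Group G] : Prop :=
  ∀ U : ℕ → Set G, (∀ n, IsOpen (U n)) → (∀ n, (U n).Nonempty) → (∀ n, U (n + 1) ⊆ U n) →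
    (⋂ n, closure {x | x⁻¹ ∈ U n}).Nonempty

/-- There is a commutative paratopological group which satisfies all the conditions (1)-(5) and is
not a topological group. -/
theorem result :
    ∃ (G : Type) (_ : CommGroup G) (_ : TopologicalSpace G), ContinuousMul G ∧ ¬ ContinuousInv G ∧
      T2Space G ∧ CountablyCompact G ∧ CountablyPracompact G ∧ Pseudocompact G ∧ BaireSpace G ∧
        TwoPseudocompact G := by
  obtain ⟨t, h1, h2, h3, h4⟩ := Pool.Agent.Y576.FA.exists_para
  let _ := t
  have g1 : ContinuousMul (Multiplicative Pool.Agent.Y576.FA.V) := inferInstance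
  have g2 : T2Space (Multiplicative Pool.Agent.Y576.FA.V) := h2
  have g3 : CountablyCompactSpace (Multiplicative Pool.Agent.Y576.FA.V) := h3
  have hcc : CountablyCompact (Multiplicative Pool.Agent.Y576.FA.V) := fun B _ hB =>
    Pool.Agent.Y576.FA.cc_acc hB
  refine ⟨Multiplicative Pool.Agent.Y576.FA.V, inferInstance, inferInstance, g1, fun hinv => h4 ?_,
    g2, hcc, ⟨Set.univ, dense_univ, hcc⟩, Pool.Agent.Y576.FA.cc_pseudo,
    Pool.Agent.Y576.FA.cc_baire, fun U _ hne hU =>
      Pool.Agent.Y576.FA.cc_two U (antitone_nat_of_succ_le hU) hne⟩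
  exact ⟨hinv.continuous_inv⟩

end Pool.Agent.Results.MP_3a0237_al.CountablyCompactZFC
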